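import Mathlib

/-!
# Linear algebra for row 6 (`scal`) of the Hanoi project: modules over commuting involutions
-/

set_option autoImplicit false

namespace Pool.Han

section alg

variable {K W : Type} [CommRing K] [AddCommGroup W] [Module K W]

/-- the two end points of the square `a b j z` annihilate the triangle sum -/
theorem s6_scal_alg1 (p q r s : K) (hp : p * p = 1) (hq : q * q = 1) (hr : r * r = 1) (hs : s * s = 1)
    (h4 : ∀ w : W, (4 : K) • w = 0 → w = 0)
    (x1 x2 x3 y1 y2 y3 u1 u2 u3 : W)
    (i1 : (p * q) • x1 = -x1) (i2 : (q * r) • x2 = -x2) (i3 : (r * p) • x3 = -x3)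
    (j1 : (s * r) • y1 = -y1) (j2 : (s * p) • y2 = -y2) (j3 : (s * q) • y3 = -y3)
    (d1 : x1 - (s * r) • x1 = y1 - (p * q) • y1)
    (d2 : x2 - (s * p) • x2 = y2 - (q * r) • y2)
    (d3 : x3 - (s * q) • x3 = y3 - (r * p) • y3)
    (a1 : y1 - p • y1 = u1 - (s * r) • u1)
    (a2 : x2 - p • x2 = u1 - (q * r) • u1)
    (a3 : y3 - p • y3 = u1 - (s * q) • u1)
    (b1 : y1 - q • y1 = u2 - (s * r) • u2)
    (b2 : y2 - q • y2 = u2 - (s * p) • u2)
    (b3 : x3 - q • x3 = u2 - (r * p) • u2)
    (c1 : x1 - r • x1 = u3 - (p * q) • u3)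
    (c2 : y2 - r • y2 = u3 - (s * p) • u3)
    (c3 : y3 - r • y3 = u3 - (s * q) • u3) :
    (1 + p * q * r * s) • (x1 + (p * q) • x2 - x3) = 0 := by
  have hA : (1 + p * q * r * s) • x1 = (1 + p * q * r * s) • y1 := by
    linear_combination (norm := module) d1 + (r * s) • i1 - (p * q) • j1
  have hB : (1 + p * q * r * s) • x2 = (1 + p * q * r * s) • y2 := by
    linear_combination (norm := module) d2 + (s * p) • i2 - (q * r) • j2
  have hC : (1 + p * q * r * s) • x3 = (1 + p * q * r * s) • y3 := by
    linear_combination (norm := module) d3 + (s * q) • i3 - (r * p) • j3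
  set O : K := 1 + p * q * r * s with hO
  set E : W := O • (x1 + (p * q) • x2 - x3) with hE
  -- `p`, `q`, `r` fix `E`
  have k1 : O * ((1 - s * r) + p * q * (1 - q * r) - (1 - s * q)) = 0 := by
    rw [hO]
    linear_combination (r * s * q ^ 2 - s * q * q ^ 2 * r ^ 2) * hp + (r * s - s * q * r ^ 2) * hq +
      (-(p * q * s ^ 2) - s * q) * hr + (-(p * q) + p * q ^ 2 * r) * hs
  have k2 : O * ((1 - s * r) + p * q * (1 - s * p) - (1 - r * p)) = 0 := by
    rw [hO]
    linear_combination (r * s * q ^ 2 - r * p * q ^ 2 * s ^ 2) * hp + (r * s - r * p * s ^ 2) * hq +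
      (-(p * q * s ^ 2) + p ^ 2 * q * s) * hr + (-(p * q) - r * p) * hs
  have k3 : O * ((1 - p * q) + p * q * (1 - s * p) - (1 - s * q)) = 0 := by
    rw [hO]
    linear_combination (-(s * q) * (1 + p * q * r * s)) * hp
  have e1 : (1 - p) • E = 0 := by
    have k1' : (O * ((1 - s * r) + p * q * (1 - q * r) - (1 - s * q))) • u1 = 0 := by
      rw [k1, zero_smul]
    rw [hE]
    linear_combination (norm := module) (1 - p) • hA - (1 - p) • hC + O • a1 + (O * (p * q)) • a2 - O • a3 + k1'
  have e2 : (1 - q) • E = 0 := by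
    have k2' : (O * ((1 - s * r) + p * q * (1 - s * p) - (1 - r * p))) • u2 = 0 := by
      rw [k2, zero_smul]
    rw [hE]
    linear_combination (norm := module) (1 - q) • hA + ((1 - q) * (p * q)) • hB + O • b1 + (O * (p * q)) • b2 - O • b3 + k2'
  have e3 : (1 - r) • E = 0 := by
    have k3' : (O * ((1 - p * q) + p * q * (1 - s * p) - (1 - s * q))) • u3 = 0 := by
      rw [k3, zero_smul]
    rw [hE]
    linear_combination (norm := module) ((1 - r) * (p * q)) • hB - (1 - r) • hC + O • c1 + (O * (p * q)) • c2 - O • c3 + k3'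
  -- the sum over the four group elements kills `E`
  have s1 : (1 + p * q + q * r + r * p) • x1 = 0 := by
    have : (r * p) • x1 = - ((q * r) • x1) := by
      have h : (r * p * (q * q)) • x1 = (r * p) • x1 := by rw [hq, mul_one]
      linear_combination (norm := module) (q * r) • i1 - h
    linear_combination (norm := module) i1 + this
  have s2 : (1 + p * q + q * r + r * p) • x2 = 0 := by
    have : (r * p) • x2 = - ((p * q) • x2) := by
      have h : (r * p * (q * q)) • x2 = (r * p) • x2 := by rw [hq, mul_one]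
      linear_combination (norm := module) (p * q) • i2 - h
    linear_combination (norm := module) i2 + this
  have s3 : (1 + p * q + q * r + r * p) • x3 = 0 := by
    have : (p * q) • x3 = - ((q * r) • x3) := by
      have h : (p * q * (r * r)) • x3 = (p * q) • x3 := by rw [hr, mul_one]
      linear_combination (norm := module) (q * r) • i3 - h
    linear_combination (norm := module) i3 + this
  have sE : (1 + p * q + q * r + r * p) • E = 0 := by
    rw [hE]
    linear_combination (norm := module) O • s1 + (O * (p * q)) • s2 - O • s3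
  refine h4 E ?_
  linear_combination (norm := module) sE + (1 + r) • e1 + (1 + p) • e2 + (1 + q) • e3

/-- the scaling relation -/
theorem s6_scal_alg2 (p q r s : K) (hp : p * p = 1) (hq : q * q = 1) (hr : r * r = 1) (hs : s * s = 1)
    (h3 : ∀ w : W, (3 : K) • w = 0 → w = 0) (C H : W)
    (hz : (1 + p * q * r * s) • C = 0) (hw : (1 + p * q * r) • C = 0)
    (hH : H - (r * p * (s * q + q)) • H = - ((6 : K) • (r * p) • C)) :
    H = - ((2 : K) • (r * p) • C) := by
  -- `w = H + 2 rp C` is fixed by `σ = pqrs + pqr`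
  set w : W := H + (2 : K) • (r * p) • C with hwdef
  have hσ : (p * q * r * s + p * q * r) • w = w := by
    rw [hwdef]
    linear_combination (norm := module) -hH + (2 * (r * p)) • hz + (2 * (r * p)) • hw
  -- `σ² = 2 + 2 s`
  have hσ2 : ((2 : K) + 2 * s) • w = w := by
    have e : ((p * q * r * s + p * q * r) * (p * q * r * s + p * q * r)) • w = (2 + 2 * s) • w := by
      congr 1
      linear_combination (q ^ 2 * r ^ 2 * (s ^ 2 + 2 * s + 1)) * hp + (r ^ 2 * (s ^ 2 + 2 * s + 1)) * hq +
        (s ^ 2 + 2 * s + 1) * hr + hs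
    rw [← e, mul_smul, hσ, hσ]
  have h5 : (3 : K) • w = 0 := by
    have e : ((2 * s) * (2 * s)) • w = (4 : K) • w := by
      congr 1
      linear_combination 4 * hs
    linear_combination (norm := module) (2 * s - 1) • hσ2 - e
  have h6 := h3 w h5
  rw [hwdef] at h6
  exact eq_neg_of_add_eq_zero_left h6

end alg

end Pool.Han
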