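import Pool.Agent.H7.Han.Cls
import Pool.Agent.H96.Han.ScalAlg

/-!
# Row 6 of the Hanoi project: the claim `O_z c(T) = 0`
-/

set_option autoImplicit false
open Equiv

namespace Pool.Han

lemma s6_af_comm_disj {k l m n : X} (h1 : k ≠ m) (h2 : k ≠ n) (h3 : l ≠ m) (h4 : l ≠ n) (x : Sq) :
    af k l (af m n x) = af m n (af k l x) := by
  have key : ∀ t : ℕ, ∀ x : Sq, af k l (af m n x) t = af m n (af k l x) t := by
    intro t
    induction t with
    | zero =>
      intro x
      simp only [af_zero]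
      by_cases hm : x 0 = m
      · rw [hm, swap_apply_left, swap_apply_of_ne_of_ne h2.symm h4.symm,
          swap_apply_of_ne_of_ne h1.symm h3.symm, swap_apply_left]
      · by_cases hn : x 0 = n
        · rw [hn, swap_apply_right, swap_apply_of_ne_of_ne h1.symm h3.symm,
            swap_apply_of_ne_of_ne h2.symm h4.symm, swap_apply_right]
        · rw [swap_apply_of_ne_of_ne hm hn]
          by_cases hk : x 0 = k
          · rw [hk, swap_apply_left, swap_apply_of_ne_of_ne h3 h4]
          · by_cases hl : x 0 = l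
            · rw [hl, swap_apply_right, swap_apply_of_ne_of_ne h1 h2]
            · rw [swap_apply_of_ne_of_ne hk hl, swap_apply_of_ne_of_ne hm hn]
    | succ t ih =>
      intro x
      rw [← cons_tl x]
      by_cases hm : x 0 = m ∨ x 0 = n
      · have hk : x 0 ≠ k ∧ x 0 ≠ l := by
          rcases hm with h | h <;> rw [h]
          · exact ⟨h1.symm, h3.symm⟩
          · exact ⟨h2.symm, h4.symm⟩
        rw [af_cons_of _ _ _ _ hm, af_cons_not _ _ _ _ hk.1 hk.2, af_cons_of _ _ _ _ hm, af_cons_not]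
        · rcases hm with h | h <;> rw [h]
          · rw [swap_apply_left]; exact h2.symm
          · rw [swap_apply_right]; exact h1.symm
        · rcases hm with h | h <;> rw [h]
          · rw [swap_apply_left]; exact h4.symm
          · rw [swap_apply_right]; exact h3.symm
      · by_cases hk : x 0 = k ∨ x 0 = l
        · push Not at hm
          rw [af_cons_not _ _ _ _ hm.1 hm.2, af_cons_of _ _ _ _ hk, af_cons_of _ _ _ _ hk, af_cons_not]
          · rcases hk with h | h <;> rw [h]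
            · rw [swap_apply_left]; exact h3
            · rw [swap_apply_right]; exact h1
          · rcases hk with h | h <;> rw [h]
            · rw [swap_apply_left]; exact h4
            · rw [swap_apply_right]; exact h2
        · push Not at hm hk
          rw [af_cons_not _ _ _ _ hm.1 hm.2, af_cons_not _ _ _ _ hk.1 hk.2,
            af_cons_not _ _ _ _ hk.1 hk.2, af_cons_not _ _ _ _ hm.1 hm.2]
          simpa using ih (tl x)
  funext t; exact key t x

/-- disjoint letters commute -/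
lemma s6_L_comm_disj {k l m n : X} (h1 : k ≠ m) (h2 : k ≠ n) (h3 : l ≠ m) (h4 : l ≠ n) :
    L k l * L m n = L m n * L k l := by
  apply Subtype.ext
  apply Equiv.ext
  intro x
  exact s6_af_comm_disj h1 h2 h3 h4 x

section claim

variable {W : Type} [NormedAddCommGroup W] [InnerProductSpace ℝ W]
    (π : G →* (W ≃ₗᵢ[ℝ] W))

/-- the action as an endomorphism -/
noncomputable def s6_Aop (g : G) : Module.End ℝ W := (π g).toLinearEquiv.toLinearMap

lemma s6_Aop_apply (g : G) (v : W) : s6_Aop π g v = π g v := rfl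

variable {π}

lemma s6_pi_mul (g h : G) (v : W) : π g (π h v) = π (g * h) v := by
  rw [map_mul]; rfl

lemma s6_pi_cl (hπ : ∀ g ∈ Gb, ∀ w, π g w = w) {g h : G} (e : cl g = cl h) (v : W) : π g v = π h v := by
  have h1 : g * h⁻¹ ∈ Gb := by
    rw [mem_Gb, cl_mul, cl_inv, e, add_neg_cancel]
  have h2 := hπ _ h1 (π h v)
  rw [s6_pi_mul, inv_mul_cancel_right] at h2
  exact h2

lemma s6_pi_comm (hπ : ∀ g ∈ Gb, ∀ w, π g w = w) (g h : G) (v : W) : π g (π h v) = π h (π g v) := by
  rw [s6_pi_mul, s6_pi_mul]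
  exact s6_pi_cl hπ (by rw [cl_mul, cl_mul, add_comm]) v

lemma s6_Aop_comm (hπ : ∀ g ∈ Gb, ∀ w, π g w = w) :
    ∀ x ∈ Set.range (s6_Aop π), ∀ y ∈ Set.range (s6_Aop π), x * y = y * x := by
  rintro _ ⟨g, rfl⟩ _ ⟨h, rfl⟩
  apply LinearMap.ext
  intro v
  exact s6_pi_comm hπ g h v

/-- `t_ab t_bj = t_aj` -/
lemma s6_pi_tri (hπ : ∀ g ∈ Gb, ∀ w, π g w = w) {a b j : X} (h1 : a ≠ b) (h2 : b ≠ j) (h3 : a ≠ j) (v : W) :
    π (L a b) (π (L b j) v) = π (L a j) v := by
  rw [s6_pi_mul]
  refine s6_pi_cl hπ ?_ v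
  rw [cl_mul, cl_L h1, cl_L h2, cl_L h3]
  have : (Pi.single b (1 : ZMod 2) : X → ZMod 2) + Pi.single b 1 = 0 := by
    funext t
    simp only [Pi.add_apply, Pi.zero_apply]
    exact CharTwo.add_self_eq_zero _
  calc (Pi.single a 1 + Pi.single b 1 + (Pi.single b 1 + Pi.single j 1) : X → ZMod 2)
      = Pi.single a 1 + (Pi.single b 1 + Pi.single b 1) + Pi.single j 1 := by abel
    _ = _ := by rw [this, add_zero]

lemma s6_pi_sq (a b : X) (v : W) : π (L a b) (π (L a b) v) = v := by
  rw [s6_pi_mul, L_mul_self, map_one]; rfl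

variable {c : G → W}

lemma s6_coc_one (hc : ∀ g h, c (g * h) = c g + π g (c h)) : c 1 = 0 := by
  have := hc 1 1
  rw [map_one, mul_one] at this
  exact left_eq_add.1 this

lemma s6_coc_L (hc : ∀ g h, c (g * h) = c g + π g (c h)) (k l : X) : π (L k l) (c (L k l)) = - c (L k l) := by
  have := hc (L k l) (L k l)
  rw [L_mul_self, s6_coc_one hc] at this
  exact (neg_eq_of_add_eq_zero_right this.symm).symm

lemma s6_coc_disj (hc : ∀ g h, c (g * h) = c g + π g (c h)) {k l m n : X} (h1 : k ≠ m) (h2 : k ≠ n)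
    (h3 : l ≠ m) (h4 : l ≠ n) :
    c (L k l) - π (L m n) (c (L k l)) = c (L m n) - π (L k l) (c (L m n)) := by
  have h5 := hc (L k l) (L m n)
  have h6 := hc (L m n) (L k l)
  rw [s6_L_comm_disj h1 h2 h3 h4, h6] at h5
  linear_combination (norm := module) -h5

/-- `O_z c(T) = 0` -/
lemma s6_scal_claim (hπ : ∀ g ∈ Gb, ∀ w, π g w = w) (hc : ∀ g h, c (g * h) = c g + π g (c h))
    {a b j z w : X} (hab : a ≠ b) (hbj : b ≠ j) (haj : a ≠ j) (hza : z ≠ a) (hzb : z ≠ b) (hzj : z ≠ j)
    (hwa : w ≠ a) (hwb : w ≠ b) (hwj : w ≠ j) (hwz : w ≠ z) :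
    c (T a b j) + π (L a j) (π (L z b) (c (T a b j))) = 0 := by
  let S : Set (Module.End ℝ W) := Set.range (s6_Aop π)
  let _ : CommRing (Algebra.adjoin ℝ S) :=
    { (Algebra.adjoin ℝ S).toRing with
      mul_comm := fun x y => by
        have := Algebra.isMulCommutative_adjoin ℝ (s6_Aop_comm hπ)
        exact mul_comm' x y }
  let p : Algebra.adjoin ℝ S := ⟨s6_Aop π (L w a), Algebra.subset_adjoin ⟨_, rfl⟩⟩
  let q : Algebra.adjoin ℝ S := ⟨s6_Aop π (L w b), Algebra.subset_adjoin ⟨_, rfl⟩⟩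
  let r : Algebra.adjoin ℝ S := ⟨s6_Aop π (L w j), Algebra.subset_adjoin ⟨_, rfl⟩⟩
  let s : Algebra.adjoin ℝ S := ⟨s6_Aop π (L w z), Algebra.subset_adjoin ⟨_, rfl⟩⟩
  have hp : p * p = 1 := by
    apply Subtype.ext
    apply LinearMap.ext
    intro v
    exact s6_pi_sq w a v
  have hq : q * q = 1 := by
    apply Subtype.ext
    apply LinearMap.ext
    intro v
    exact s6_pi_sq w b v
  have hr : r * r = 1 := by
    apply Subtype.ext
    apply LinearMap.ext
    intro v
    exact s6_pi_sq w j v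
  have hs : s * s = 1 := by
    apply Subtype.ext
    apply LinearMap.ext
    intro v
    exact s6_pi_sq w z v
  have hpv : ∀ v : W, p • v = π (L w a) v := fun v => rfl
  have hqv : ∀ v : W, q • v = π (L w b) v := fun v => rfl
  have hrv : ∀ v : W, r • v = π (L w j) v := fun v => rfl
  have hsv : ∀ v : W, s • v = π (L w z) v := fun v => rfl
  have hpq : ∀ v : W, (p * q) • v = π (L a b) v := fun v => by
    rw [mul_smul, hpv, hqv, L_comm w a]; exact s6_pi_tri hπ hwa.symm hwb hab v
  have hqr : ∀ v : W, (q * r) • v = π (L b j) v := fun v => by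
    rw [mul_smul, hqv, hrv, L_comm w b]; exact s6_pi_tri hπ hwb.symm hwj hbj v
  have hrp : ∀ v : W, (r * p) • v = π (L j a) v := fun v => by
    rw [mul_smul, hrv, hpv, L_comm w j]; exact s6_pi_tri hπ hwj.symm hwa haj.symm v
  have hsr : ∀ v : W, (s * r) • v = π (L z j) v := fun v => by
    rw [mul_smul, hsv, hrv, L_comm w z]; exact s6_pi_tri hπ hwz.symm hwj hzj v
  have hsp : ∀ v : W, (s * p) • v = π (L z a) v := fun v => by
    rw [mul_smul, hsv, hpv, L_comm w z]; exact s6_pi_tri hπ hwz.symm hwa hza v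
  have hsq : ∀ v : W, (s * q) • v = π (L z b) v := fun v => by
    rw [mul_smul, hsv, hqv, L_comm w z]; exact s6_pi_tri hπ hwz.symm hwb hzb v
  have h4 : ∀ w : W, (4 : Algebra.adjoin ℝ S) • w = 0 → w = 0 := by
    intro v hv
    have e1 : (4 : Algebra.adjoin ℝ S) • v = v + v + v + v := by module
    have e2 : (4 : ℝ) • v = v + v + v + v := by module
    rw [e1, ← e2] at hv
    exact (smul_eq_zero.1 hv).resolve_left (by norm_num)
  have key := s6_scal_alg1 (K := Algebra.adjoin ℝ S) (W := W) p q r s hp hq hr hs h4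
    (c (L a b)) (c (L b j)) (c (L j a)) (c (L z j)) (c (L z a)) (c (L z b))
    (c (L w a)) (c (L w b)) (c (L w j))
    (by rw [hpq]; exact s6_coc_L hc a b) (by rw [hqr]; exact s6_coc_L hc b j) (by rw [hrp]; exact s6_coc_L hc j a)
    (by rw [hsr]; exact s6_coc_L hc z j) (by rw [hsp]; exact s6_coc_L hc z a) (by rw [hsq]; exact s6_coc_L hc z b)
    (by rw [hsr, hpq]; exact s6_coc_disj hc hza.symm haj hzb.symm hbj)
    (by rw [hsp, hqr]; exact s6_coc_disj hc hzb.symm hab.symm hzj.symm haj.symm)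
    (by rw [hsq, hrp]; exact s6_coc_disj hc hzj.symm hbj.symm hza.symm hab)
    (by rw [hpv, hsr]; exact s6_coc_disj hc hwz.symm hza hwj.symm haj.symm)
    (by rw [hpv, hqr]; exact s6_coc_disj hc hwb.symm hab.symm hwj.symm haj.symm)
    (by rw [hpv, hsq]; exact s6_coc_disj hc hwz.symm hza hwb.symm hab.symm)
    (by rw [hqv, hsr]; exact s6_coc_disj hc hwz.symm hzb hwj.symm hbj.symm)
    (by rw [hqv, hsp]; exact s6_coc_disj hc hwz.symm hzb hwa.symm hab)
    (by rw [hqv, hrp]; exact s6_coc_disj hc hwj.symm hbj.symm hwa.symm hab)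
    (by rw [hrv, hpq]; exact s6_coc_disj hc hwa.symm haj hwb.symm hbj)
    (by rw [hrv, hsp]; exact s6_coc_disj hc hwz.symm hzj hwa.symm haj)
    (by rw [hrv, hsq]; exact s6_coc_disj hc hwz.symm hzj hwb.symm hbj)
  have hT : c (T a b j) = c (L a b) + (p * q) • c (L b j) - c (L j a) := by
    rw [T, hc, hc, ← s6_pi_mul, s6_pi_tri hπ hab hbj haj, L_comm j a, s6_coc_L hc a j, hpq, sub_eq_add_neg]
  have hO : ∀ v : W, (1 + p * q * r * s) • v = v + π (L a j) (π (L z b) v) := by
    intro v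
    have e : p * q * r * s = (r * p) * (s * q) := by ring
    rw [add_smul, one_smul, e, mul_smul, hrp, hsq, L_comm j a]
  rw [← hO, hT]
  exact key

end claim

end Pool.Han
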